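import Mathlib
import Pool.Agent.H16.HypBal

set_option autoImplicit false

namespace Pool.Agent.Results.MP_906af0_co.Yes

open Pool.Agent.H16.HypBal

theorem result : ∃ n : ℕ, 1 ≤ n ∧ ∃ C : Set (H n), Discrete C ∧ Balanced C ∧ ¬ GroupBalanced C :=
  ⟨3, by norm_num, C, discrete, balanced, not_gb⟩

end Pool.Agent.Results.MP_906af0_co.Yes
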